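import Pool.Agent.MP_887f27_pr.H69.Proc

/-! Expansion of the laws of the process and the choice of the parameters. -/

namespace Pool.Agent.MP_887f27_pr.H61

open MeasureTheory ProbabilityTheory Set Filter
open scoped ENNReal
open Pool.Agent.MP_887f27_pr.H69

lemma mp_shuffle {α β : Type} [MeasurableSpace α] [MeasurableSpace β] {μ : Measure α}
    {ν : Measure β} [IsProbabilityMeasure μ] [IsProbabilityMeasure ν] {f : α × α → α}
    {k : β × β → β} (hf : MeasurePreserving f (μ.prod μ) μ)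
    (hk : MeasurePreserving k (ν.prod ν) ν) :
    MeasurePreserving (fun p : (α × β) × (α × β) => (f (p.1.1, p.2.1), k (p.1.2, p.2.2)))
      ((μ.prod ν).prod (μ.prod ν)) (μ.prod ν) := by
  have h1 := measurePreserving_prodAssoc μ ν (μ.prod ν)
  have h2 := (MeasurePreserving.id μ).prod (measurePreserving_prodAssoc ν μ ν).symm
  have h3 := (MeasurePreserving.id μ).prod
    ((Measure.measurePreserving_swap (μ := ν) (ν := μ)).prod (MeasurePreserving.id ν))
  have h4 := (MeasurePreserving.id μ).prod (measurePreserving_prodAssoc μ ν ν)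
  have h5 := (measurePreserving_prodAssoc μ μ (ν.prod ν)).symm
  exact (hf.prod hk).comp (h5.comp (h4.comp (h3.comp (h2.comp h1))))

/-- Two samples agree at the site `w`. -/
def Agr (ω ω' : Om) (w : V) : Prop :=
  ω.1.1 w = ω'.1.1 w ∧ (∀ n, ω.1.2 (w, n) = ω'.1.2 (w, n)) ∧ ω.2 w = ω'.2 w

lemma Agr.symm {ω ω' : Om} {w : V} (h : Agr ω ω' w) : Agr ω' ω w :=
  ⟨h.1.symm, fun n => (h.2.1 n).symm, h.2.2.symm⟩

lemma indep_Om (q : ℝ) (S : Set V) {A B : Set Om} (hA : MeasurableSet A) (hB : MeasurableSet B)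
    (dA : ∀ a b, (∀ w ∈ S, Agr a b w) → a ∈ A → b ∈ A)
    (dB : ∀ a b, (∀ w ∉ S, Agr a b w) → a ∈ B → b ∈ B) :
    PP q (A ∩ B) = PP q A * PP q B := by
  classical
  have hC : MeasurePreserving (fun p : Clk × Clk => S.piecewise p.1 p.2) (muC.prod muC) muC :=
    ⟨measurable_pw S, map_pw _ S⟩
  have hM : MeasurePreserving (fun p : Mrk × Mrk => {i : V × ℕ | i.1 ∈ S}.piecewise p.1 p.2)
      (muM.prod muM) muM := ⟨measurable_pw _, map_pw _ _⟩
  have hX : MeasurePreserving (fun p : Cfg × Cfg => S.piecewise p.1 p.2)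
      ((nu q).prod (nu q)) (nu q) := ⟨measurable_pw S, map_pw _ S⟩
  have h := mp_shuffle (mp_shuffle hC hM) hX
  rw [← Measure.prod_prod]
  refine (h.measure_preimage (hA.inter hB).nullMeasurableSet).symm.trans ?_
  congr 1
  ext p
  simp only [mem_preimage, mem_inter_iff, Set.mem_prod]
  have h1 : ∀ w ∈ S, Agr ((S.piecewise p.1.1.1 p.2.1.1,
      {i : V × ℕ | i.1 ∈ S}.piecewise p.1.1.2 p.2.1.2), S.piecewise p.1.2 p.2.2) p.1 w :=
    fun w hw => by simp [Agr, Set.piecewise, hw]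
  have h2 : ∀ w ∉ S, Agr ((S.piecewise p.1.1.1 p.2.1.1,
      {i : V × ℕ | i.1 ∈ S}.piecewise p.1.1.2 p.2.1.2), S.piecewise p.1.2 p.2.2) p.2 w :=
    fun w hw => by simp [Agr, Set.piecewise, hw]
  exact ⟨fun h => ⟨dA _ _ h1 h.1, dB _ _ h2 h.2⟩,
    fun h => ⟨dA _ _ (fun i hi => (h1 i hi).symm) h.1, dB _ _ (fun i hi => (h2 i hi).symm) h.2⟩⟩

lemma finite_range (r : Rule) (q : ℝ) (D : ℕ) (t : ℝ) {A : Set Cfg} (hA : Loc A) :
    ∃ ρ, ∀ u, ρ < nrm u →
      (lawD r q D t).real {x | x ∈ A ∧ sh u x ∈ A} = (lawD r q D t).real A ^ 2 := by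
  obtain ⟨H, hH⟩ := cfgD_local r D hA
  obtain ⟨ρ, hρ⟩ := exists_nrm_le H
  refine ⟨2 * ρ, fun u hu => ?_⟩
  have mA := hA.measurableSet
  have mE : MeasurableSet {ω | cfgD r D t ω ∈ A} := measurable_cfgD r D t mA
  rw [lawD_real r q D t (Loc.and (P := fun x => x ∈ A) hA (hA.sh u)).measurableSet,
    lawD_real r q D t mA]
  have e : {ω | cfgD r D t ω ∈ {x | x ∈ A ∧ sh u x ∈ A}} =
      {ω | cfgD r D t ω ∈ A} ∩ shO u ⁻¹' {ω | cfgD r D t ω ∈ A} := by
    ext ω
    simp only [mem_ofPred_eq, mem_inter_iff, mem_preimage, cfgD_shO]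
  rw [e, measureReal_def, indep_Om q H mE ((mp_shO q u).measurable mE)
    (fun a b h => hH a b t h), (mp_shO q u).measure_preimage mE.nullMeasurableSet,
    ENNReal.toReal_mul, sq, measureReal_def]
  intro a b h
  refine hH _ _ t fun w hw => h (u * w) fun hw' => ?_
  have h1 := nrm_mul_le (u * w) w⁻¹
  rw [mul_inv_cancel_right, nrm_inv] at h1
  have h2 := hρ _ hw
  have h3 := hρ _ hw'
  omega

theorem expand : ExpandStmt := by
  intro hG hX q t A hA
  refine le_of_forall_pos_le_add fun ε hε => ?_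
  have hB : ∀ d : Dir, Loc {x | x ∈ A ∧ sh (g d) x ∉ A} := fun d =>
    Loc.and (P := fun x => x ∈ A) hA (hA.sh (g d)).not
  have h5 : 0 < ε / 5 := by positivity
  obtain ⟨D, h1, h2⟩ := ((approx hG t hA h5).and
    (eventually_all.2 fun d => approx hG t (hB d) h5)).exists
  have h3 := hX (lawD rI q D t) (inv_lawD rI q D t) A hA.measurableSet (finite_range rI q D t hA)
  have h4 : ∑ d : Dir, (lawD rI q D t).real {x | x ∈ A ∧ sh (g d) x ∉ A} ≤
      ∑ d : Dir, ((lawI rI q t).real {x | x ∈ A ∧ sh (g d) x ∉ A} + ε / 5) :=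
    Finset.sum_le_sum fun d _ => by linarith [(abs_le.1 (h2 d rI q)).2]
  rw [Finset.sum_add_distrib] at h4
  simp only [Finset.sum_const, Finset.card_univ, Fintype.card_prod, Fintype.card_fin,
    Fintype.card_bool, nsmul_eq_mul] at h4
  obtain ⟨h6, h7⟩ := abs_le.1 (h1 rI q)
  have a0 : 0 ≤ (lawD rI q D t).real A := measureReal_nonneg
  have a1 : (lawD rI q D t).real A ≤ 1 := measureReal_le_one
  have b0 : 0 ≤ (lawI rI q t).real A := measureReal_nonneg
  have b1 : (lawI rI q t).real A ≤ 1 := measureReal_le_one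
  push_cast at h4
  nlinarith

lemma russoI (hR : RussoStmt) (D k R : ℕ) : ∃ I : ℝ → ℝ,
    (∀ q ∈ Ioo (0 : ℝ) 1,
      HasDerivAt (fun s => (PP s).real {ω | 1 ∈ KX ω.1 D k R ω.2}) (-I q) q) ∧
    ∀ q, 0 ≤ I q ∧ ∑' h : V, PP q {ω | 1 ∈ F (KX ω.1 D k R) h ω.2} = ENNReal.ofReal (I q) := by
  obtain ⟨H, hH⟩ := cfgD_local rI D (loc_core (loc_sgn false) R 1)
  have dep : ∀ θ, MP_77ae5d_pr.H74.Dep {x | 1 ∈ KX θ D k R x} (H : Set V) := fun θ x y h =>
    hH (θ, x) (θ, y) k fun w hw => ⟨rfl, fun _ => rfl, h w hw⟩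
  have mu : ∀ (h : V) (s : Bool),
      MeasurableSet {ω : Om | 1 ∈ KX ω.1 D k R (Function.update ω.2 h s)} := fun h s =>
    (ms_KX D k R 1).preimage (f := fun ω : Om => (ω.1, Function.update ω.2 h s))
      (measurable_fst.prodMk (measurable_update_left.comp measurable_snd))
  refine ⟨fun q => ∑ h ∈ H, (PP q).real {ω | 1 ∈ F (KX ω.1 D k R) h ω.2}, fun q hq => ?_,
    fun q => ⟨Finset.sum_nonneg fun _ _ => measureReal_nonneg, ?_⟩⟩
  · have := hR (muC.prod muM) H _ (ms_KX D k R 1) dep q hq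
    refine HasDerivAt.congr_deriv this ?_
    rw [← Finset.sum_neg_distrib]
    refine Finset.sum_congr rfl fun h _ => ?_
    have sub : {ω : Om | 1 ∈ KX ω.1 D k R (Function.update ω.2 h true)} ⊆
        {ω : Om | 1 ∈ KX ω.1 D k R (Function.update ω.2 h false)} := fun ω hω =>
      KX_anti ω.1 D k R (update_le_update_iff'.2 (by decide)) hω
    have := measureReal_sdiff (μ := PP q) sub (mu h true)
    exact (neg_sub _ _).symm.trans (congrArg Neg.neg this.symm)
  · rw [ENNReal.ofReal_sum_of_nonneg fun _ _ => measureReal_nonneg, tsum_eq_sum (s := H)]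
    · exact Finset.sum_congr rfl fun h _ => (ofReal_measureReal).symm
    · intro h hh
      convert measure_empty (μ := PP q)
      refine eq_empty_of_forall_notMem fun ω hω => hω.2 (dep ω.1 _ _ (fun w hw => ?_) hω.1)
      have : w ≠ h := fun e => hh (e ▸ hw)
      simp [Function.update_of_ne this]

theorem param : ParamStmt := by
  intro hG hR hS hD p ε hp hp1 hε hbd n τ hτ
  obtain ⟨R0, hR0⟩ := exists_nat_ge (12 / τ + 1)
  have hb : 0 < 12 / τ := by positivity
  have hR0' : (0 : ℝ) < R0 := by linarith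
  set a : ℝ := 12 / τ + 48 * R0 / ε with ha
  have ha2 : 0 < 48 * R0 / ε := by positivity
  obtain ⟨C, hC⟩ := hD (max n R0)
  obtain ⟨N, hN⟩ := exists_nat_ge (|2 * a * C| + 1)
  have hN0 : (0 : ℝ) < N := by linarith [abs_nonneg (2 * a * C)]
  have hN1 : 2 * a * C ≤ N := by linarith [le_abs_self (2 * a * C)]
  set T := Finset.range N ×ˢ Finset.range R0 with hT
  obtain ⟨D, hD1, hD2⟩ := (((eventually_all_finset T).2 fun i _ =>
    approx hG i.1 (loc_core (loc_sgn false) i.2 1) (show 0 < ε / 32 by positivity)).and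
      ((eventually_all_finset T).2 fun i _ =>
        approx hG i.1 (loc_errS n i.2 1) (show 0 < τ / 2 by positivity))).exists
  choose I hI hI' using russoI hR D
  have hsub : Icc (1 / 2 : ℝ) p ⊆ Ioo 0 1 := fun q hq => ⟨by linarith [hq.1], by linarith [hq.2]⟩
  have hder : ∀ q ∈ Ioo (0 : ℝ) 1, HasDerivAt
      (fun s => ∑ i ∈ T, (PP s).real {ω | 1 ∈ KX ω.1 D i.1 i.2 ω.2}) (∑ i ∈ T, -I i.1 i.2 q) q :=
    fun q hq => HasDerivAt.fun_sum fun i _ => hI i.1 i.2 q hq
  obtain ⟨q, hq, hq'⟩ := exists_hasDerivAt_eq_slope _ _ hp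
    (fun q hq => (hder q (hsub hq)).continuousAt.continuousWithinAt)
    (fun q hq => hder q (hsub (Ioo_subset_Icc_self hq)))
  have hp0 : 0 < p - 1 / 2 := by linarith
  have hcard : (T.card : ℝ) = N * R0 := by simp [hT]
  have s1 : ∑ i ∈ T, (p - 1 / 2) * I i.1 i.2 q ≤ N * R0 := by
    rw [eq_div_iff hp0.ne', Finset.sum_neg_distrib] at hq'
    have h1 : ∑ i ∈ T, (PP (1 / 2)).real {ω | 1 ∈ KX ω.1 D i.1 i.2 ω.2} ≤ N * R0 := by
      rw [← hcard]
      simpa using Finset.sum_le_card_nsmul T _ (1 : ℝ) fun i _ => measureReal_le_one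
    have h2 : 0 ≤ ∑ i ∈ T, (PP p).real {ω | 1 ∈ KX ω.1 D i.1 i.2 ω.2} :=
      Finset.sum_nonneg fun _ _ => measureReal_nonneg
    rw [← Finset.mul_sum]
    linarith
  set dd : Bool → ℕ → ℝ := fun s k => (lawI rI q k).real {x | Dfc (sgn s x) (max n R0) 1} with hdd
  set co : ℕ → ℕ → ℝ := fun k R => (lawI rI q k).real {x | 1 ∈ Core (sgn false x) R} with hco
  have s2 : ∀ s, ∑ i ∈ T, a * dd s i.1 ≤ a * (C * R0) := fun s => by
    rw [← Finset.mul_sum, hT, Finset.sum_product]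
    simp only [Finset.sum_const, Finset.card_range, nsmul_eq_mul]
    rw [← Finset.mul_sum, mul_comm C]
    gcongr
    exact hC q s N
  have s3 : ∑ i ∈ T, 12 / τ * (co i.1 i.2 - co i.1 (i.2 + 1)) ≤ 12 / τ * N := by
    rw [← Finset.mul_sum, hT, Finset.sum_product]
    gcongr
    have : ∀ k ∈ Finset.range N, ∑ R ∈ Finset.range R0, (co k R - co k (R + 1)) ≤ 1 :=
      fun k _ => by
        rw [Finset.sum_range_sub']
        have h1 : co k 0 ≤ 1 := measureReal_le_one
        have h2 : 0 ≤ co k R0 := measureReal_nonneg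
        linarith
    simpa using Finset.sum_le_card_nsmul _ _ _ this
  have hTne : T.Nonempty := by
    rw [← Finset.card_pos, ← Nat.cast_pos (α := ℝ), hcard]; positivity
  obtain ⟨⟨k, R⟩, hi, hZ⟩ := Finset.exists_le_of_sum_le hTne
    (f := fun i => (p - 1 / 2) * I i.1 i.2 q + a * dd false i.1 + a * dd true i.1 +
      12 / τ * (co i.1 i.2 - co i.1 (i.2 + 1))) (g := fun _ => 3) (by
    rw [Finset.sum_add_distrib, Finset.sum_add_distrib, Finset.sum_add_distrib, Finset.sum_const,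
      nsmul_eq_mul, hcard]
    nlinarith [s2 false, s2 true])
  have hRlt : R < R0 := Finset.mem_range.1 (Finset.mem_product.1 hi).2
  have mC : ∀ R, MeasurableSet {x | 1 ∈ Core (sgn false x) R} :=
    fun R => (loc_core (loc_sgn false) R 1).measurableSet
  have ec : co k R - co k (R + 1) = (lawI rI q k).real
      {x | 1 ∈ Core (sgn false x) R ∧ 1 ∉ Core (sgn false x) (R + 1)} :=
    (measureReal_sdiff (μ := lawI rI q k) (s₁ := {x | 1 ∈ Core (sgn false x) R})
      (fun x hx => core_succ_subset _ R hx) (mC (R + 1))).symm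
  have z1 : 0 ≤ (p - 1 / 2) * I k R q := mul_nonneg hp0.le (hI' k R q).1
  have d0 : ∀ s, 0 ≤ dd s k := fun s => measureReal_nonneg
  have z4 : 0 ≤ co k R - co k (R + 1) := ec ▸ measureReal_nonneg
  have z2 : 0 ≤ a * dd false k := mul_nonneg (by linarith) (d0 _)
  have z3 : 0 ≤ a * dd true k := mul_nonneg (by linarith) (d0 _)
  have z5 := mul_nonneg hb.le z4
  simp only at hZ
  refine ⟨q, Ioo_subset_Icc_self hq, k, R, D, ?_, ?_, ?_⟩
  · have h1 := (hbd q (Ioo_subset_Icc_self hq) k).trans (hS _ (inv_lawI rI q k) R)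
    have h2 : (lawI rI q k).real {x | Dfc (sgn true x) R 1} ≤ dd true k :=
      measureReal_mono fun x hx => Dfc.mono hx (by omega)
    have h3 : 48 * R0 / ε * dd true k ≤ 3 := by nlinarith [d0 true]
    rw [div_mul_eq_mul_div, div_le_iff₀ hε] at h3
    have h4 : (R : ℝ) * (lawI rI q k).real {x | Dfc (sgn true x) R 1} ≤ R0 * dd true k :=
      mul_le_mul (by exact_mod_cast hRlt.le) h2 measureReal_nonneg hR0'.le
    have h5 := (abs_le.1 (hD1 _ hi rI q)).1
    simp only at h5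
    linarith
  · rw [(hI' k R q).2]
    refine ENNReal.ofReal_le_ofReal ?_
    rw [le_div_iff₀ hp0]
    linarith
  · have h1 : (lawI rI q k).real {x | 1 ∈ ErrS n R x} ≤ dd false k + (co k R - co k (R + 1)) := by
      rw [ec]
      refine le_trans (measureReal_mono fun x hx => ?_) (measureReal_union_le _ _)
      exact hx.imp (fun h => Dfc.mono h (le_max_left _ _)) id
    have h3 : 12 / τ * dd false k ≤ 3 := by nlinarith [d0 false]
    have h4 : 12 / τ * (co k R - co k (R + 1)) ≤ 3 := by linarith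
    rw [div_mul_eq_mul_div, div_le_iff₀ hτ] at h3 h4
    have h5 := (abs_le.1 (hD2 _ hi rI q)).2
    simp only at h5
    linarith

end Pool.Agent.MP_887f27_pr.H61
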